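import Pool.Agent.Run7.h922.K.End

/-!
# No gaps in the lengths of computations relative to non-monotone induction

`Ind` is the functional `I` of non-monotone induction, `Computes e fs as c` is the relation
`{e}(I, fs, as) = c` given by Kleene's schemes S1-S9 with `I` as the argument of type 3, the least
fixed point of the positive inductive definition `Step`, and `stage α` are the stages of this
inductive definition. `IsLength α` says that some terminating computation `{e}(I, as)` with
integer inputs enters the inductive definition exactly at stage `α`, and `ComputableOrdinal α`
that some well-ordering of a subset of `ℕ` of type `α` has a characteristic function computable
in `I`.

Idea of the proof. Let `α` be computable in `I` by the index `e`. The value of a computation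
depends only on the countably many subcomputations at the stages `f_β` of the iterations, so there
are countable certificates (points `g` of Cantor space) for the values of all `{e}(I, n, m)`, and
the validity of a certificate is decided by computations of length below `ω + ω`, since `I`
computes the number quantifiers and decides well-foundedness by short computations. The
computation `I(F)(0)` with `F(g)(m) = 0` computed by first testing whether `g` is a valid
certificate and then running, if it is, through the initial segment below `m` of the ordering read
off from `g`, has length exactly `α`, if `α ≥ ω ^ 2` is a limit.
-/

set_option autoImplicit false

namespace Pool.Agent.Results.MP_70d38a_lc.NoGaps

open Run7.h922.K

/-- Every ordinal computable in the functional `I` of non-monotone induction is the length of a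
terminating computation `{e}(I, as)` with integer inputs `as`. -/
theorem result : ∀ α : Ordinal.{0}, ComputableOrdinal α → IsLength α :=
  fun _ h => isLength_of_computable h

end Pool.Agent.Results.MP_70d38a_lc.NoGaps
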